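import Pool.Agent.Helper64.DT.Stmts

set_option autoImplicit false

namespace Pool.Agent.Helper64.DT

open Pool.Agent.Helper64.CT
open Pool.Agent.Helper64.HG (Ovl Model Circ IC HellyCircle ChordModel)

variable {V : Type}

/-- two maximal cliques sharing an edge: inclusion -/
theorem sgn_sub {G : SimpleGraph V} (hD : DF G) {Q Q' : Set V} (hQ : MaxC G Q) (hQ' : MaxC G Q')
    {x p : V} (hx : x ∈ Q) (hx' : x ∈ Q') (hp : p ∈ Q) (hp' : p ∈ Q') (hpx : x ≠ p) : Q ⊆ Q' := by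
  intro z hz
  by_cases e1 : z = x
  · rw [e1]; exact hx'
  by_cases e2 : z = p
  · rw [e2]; exact hp'
  refine hQ'.2 z fun y hy hyz => ?_
  by_cases f1 : y = x
  · rw [f1]; exact hQ.1 z hz x hx e1
  by_cases f2 : y = p
  · rw [f2]; exact hQ.1 z hz p hp e2
  exact hD x p z y (hQ.1 x hx p hp hpx) (hQ.1 x hx z hz (fun e => e1 e.symm))
    (hQ.1 p hp z hz (fun e => e2 e.symm)) (hQ'.1 x hx' y hy (fun e => f1 e.symm))
    (hQ'.1 p hp' y hy (fun e => f2 e.symm)) (fun e => hyz e.symm)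

/-- a neighbour of `x` in one of two different maximal cliques at `x` is not in the other one -/
theorem sgn_out {G : SimpleGraph V} (hD : DF G) {Q Q' : Set V} (hQ : MaxC G Q) (hQ' : MaxC G Q')
    (hne : Q ≠ Q') {x p : V} (hx : x ∈ Q) (hx' : x ∈ Q') (hp : p ∈ Q) (hxp : G.Adj x p) :
    p ∉ Q' := by
  intro hp'
  exact hne (Set.Subset.antisymm (sgn_sub hD hQ hQ' hx hx' hp hp' hxp.ne)
    (sgn_sub hD hQ' hQ hx' hx hp' hp hxp.ne))

/-- Different maximal cliques at `x` give the same sign. -/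
theorem st_SGN (h1 : ST_HRQ) (h2 : ST_OPQ) : ST_SGN := by
  intro V G hD hP Dθ Dσ Dt hDat x u v
  constructor
  · rintro ⟨⟨hu, hv, hE1⟩, ⟨-, -, hE2⟩⟩
    rcases hE1 with ⟨-, hb⟩ | ⟨hC, -⟩ | ⟨Q, hQ, hB, hxQ, hTu, hTv, hb⟩
    · exact absurd hb (by decide)
    · rcases hE2 with ⟨hC', -⟩ | ⟨-, hb⟩ | ⟨Q', hQ', hB', hxQ', hTu', hTv', hb'⟩
      · exact hC.1 hC'
      · exact absurd hb (by decide)
      · have hne := ((hDat Q' hQ').2 x hxQ').1.2 u v hC
        revert hb' hne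
        cases Dt Q' x u <;> cases Dt Q' x v <;> simp
    · have hcomp : ¬ Comp G x u v := by
        intro hC
        have he := ((hDat Q hQ).2 x hxQ).1.1 u v hC
        rw [he] at hb
        simp at hb
      have hQne : Dt Q x u ≠ Dt Q x v := by
        intro he
        rw [he] at hb
        simp at hb
      rcases hE2 with ⟨hC', -⟩ | ⟨-, hb'⟩ | ⟨Q', hQ', hB', hxQ', hTu', hTv', hb'⟩
      · exact hcomp hC'
      · exact absurd hb' (by decide)
      · have hQeq : Dt Q' x u = Dt Q' x v := by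
          revert hb'
          cases Dt Q' x u <;> cases Dt Q' x v <;> simp
        have hconf : ¬ Conf G x u v := fun hC => ((hDat Q' hQ').2 x hxQ').1.2 u v hC hQeq
        have hne : Q ≠ Q' := by
          rintro rfl
          exact hQne hQeq
        by_cases hc : ∃ n, n ∈ Att G x u ∧ n ∈ Att G x v
        · obtain ⟨n, hn1, hn2⟩ := hc
          by_cases hm : ∃ w, Comp G x v w ∧ Mixed G w (Att G x u)
          · have hm2 : ∀ w, Comp G x u w → ¬ Mixed G w (Att G x v) := by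
              intro w hw hmw
              exact hconf ⟨hcomp, ⟨w, hw, hmw⟩, hm⟩
            have := h1 V G hD hP Q (Dθ Q) (Dσ Q) (Dt Q) hQ hB (hDat Q hQ) x hxQ v u hv hu
              (fun h => hcomp h.symm) ⟨⟨n, hn2, hn1⟩, hm2⟩ hTv
            exact hQne this.symm
          · have hm2 : ∀ w, Comp G x v w → ¬ Mixed G w (Att G x u) := by
              intro w hw hmw
              exact hm ⟨w, hw, hmw⟩
            exact hQne (h1 V G hD hP Q (Dθ Q) (Dσ Q) (Dt Q) hQ hB (hDat Q hQ) x hxQ u v hu hv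
              hcomp ⟨⟨n, hn1, hn2⟩, hm2⟩ hTu)
        · have hno : ∀ m, m ∈ Att G x u → m ∉ Att G x v := fun m hm1 hm2 => hc ⟨m, hm1, hm2⟩
          obtain ⟨m, hmQ, hmu⟩ := hTu
          obtain ⟨m', hmQ', hmv⟩ := hTv
          have hmm : m ≠ m' := fun e => hno m hmu (e ▸ hmv)
          exact h2 V G hD Q' (Dθ Q') (Dσ Q') (Dt Q') hQ' (hDat Q' hQ') x hxQ' u v m m' hu hv
            hTu' hTv' hno hmu hmv (sgn_out hD hQ hQ' hne hxQ hxQ' hmQ hmu.1)
            (sgn_out hD hQ hQ' hne hxQ hxQ' hmQ' hmv.1) (hQ.1 m hmQ m' hmQ' hmm) hQeq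
  · rintro ⟨hu, -, hE⟩
    rcases hE with ⟨-, hb⟩ | ⟨hC, -⟩ | ⟨Q, -, -, -, -, -, hb⟩
    · exact absurd hb (by decide)
    · exact hC.1 (Comp.refl hu)
    · simp at hb

end Pool.Agent.Helper64.DT
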